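import Mathlib

namespace Pool.Agent.Results.MP_a27c8d_co.Small
open Finset Polynomial

/-- `F_i`, the number of independent sets of size `i` -/
noncomputable def F {α : Type} (M : Matroid α) (i : ℕ) : ℕ :=
  {I : Set α | M.Indep I ∧ I.ncard = i}.ncard

/-- the reliability polynomial `∑_{i=0}^{r} F_i z^i (1-z)^{m-i}`, evaluated at `z` -/
noncomputable def Rel {α : Type} (M : Matroid α) (z : ℂ) : ℂ :=
  ∑ i ∈ range (M.eRank.toNat + 1), (F M i : ℂ) * z ^ i * (1 - z) ^ (M.E.ncard - i)

def X1 : Fin 13 → ℤ := ![1, 0, 0, 1, 1, 1, 1, 1, 1, 1, 0, 0, 0]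
def X2 : Fin 13 → ℤ := ![0, 1, 0, 1, 1, 1, 1, 0, 0, 0, 1, 1, 1]
def X3 : Fin 13 → ℤ := ![0, 0, 1, 1, 0, 0, 0, 1, 1, 1, 1, 1, 1]

def det (a b c : Fin 13) : ℤ :=
  X1 a * (X2 b * X3 c - X3 b * X2 c) - X2 a * (X1 b * X3 c - X3 b * X1 c) +
    X3 a * (X1 b * X2 c - X2 b * X1 c)

theorem key {a x y d e f : Fin 13} (h : det a x y ≠ 0) (k : det d e f ≠ 0) :
    det d x y ≠ 0 ∨ det e x y ≠ 0 ∨ det f x y ≠ 0 := by
  by_contra c
  push Not at c
  have : det d e f * det a x y =
      det a e f * det d x y + det d a f * det e x y + det d e a * det f x y := by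
    unfold det; ring
  rw [c.1, c.2.1, c.2.2] at this
  exact mul_ne_zero k h (by simpa using this)

def IsB (B : Set (Fin 13)) : Prop := ∃ a b c, det a b c ≠ 0 ∧ B = {a, b, c}

theorem rot {B : Set (Fin 13)} (h : IsB B) {a} (ha : a ∈ B) :
    ∃ x y, det a x y ≠ 0 ∧ B = {a, x, y} := by
  obtain ⟨p, q, r, h, rfl⟩ := h
  rcases ha with rfl | rfl | rfl
  · exact ⟨q, r, h, rfl⟩
  · exact ⟨r, p, by rwa [show det a r p = det p a r by unfold det; ring], by ext; simp; tauto⟩
  · exact ⟨p, q, by rwa [show det a p q = det p q a by unfold det; ring], by ext; simp; tauto⟩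

theorem ne1 {a x y : Fin 13} (h : det a x y ≠ 0) : a ≠ x ∧ a ≠ y := by
  constructor <;> rintro rfl <;> apply h <;> unfold det <;> ring

theorem exch : Matroid.ExchangeProperty IsB := by
  intro B B' h h' a ha
  obtain ⟨x, y, k, rfl⟩ := rot h ha.1
  obtain ⟨d, e, f, k', rfl⟩ := h'
  have : ∃ b ∈ ({d, e, f} : Set (Fin 13)), det b x y ≠ 0 := by
    rcases key k k' with c | c | c
    · exact ⟨d, by simp, c⟩
    · exact ⟨e, by simp, c⟩
    · exact ⟨f, by simp, c⟩
  obtain ⟨b, hb, c⟩ := this
  have n1 := ne1 k
  have n2 := ne1 c
  have n3 : b ≠ a := fun e => ha.2 (e ▸ hb)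
  refine ⟨b, ⟨hb, by simp [n2.1, n2.2, n3]⟩, b, x, y, c, ?_⟩
  ext z
  simp only [Set.mem_insert_iff, Set.mem_diff, Set.mem_singleton_iff]
  constructor
  · tauto
  · rintro (rfl | rfl | rfl)
    · simp
    · simp [n1.1.symm]
    · simp [n1.2.symm]

/-- the non-Fano plane with three points tripled -/
noncomputable def N : Matroid (Fin 13) :=
  Matroid.ofIsBaseOfFinite Set.finite_univ IsB ⟨_, 0, 1, 2, by decide, rfl⟩ exch
    fun _ _ => Set.subset_univ _

/-- complements of the nine lines -/
def cs : List (List (Fin 13)) := [[2, 3, 7, 8, 9, 10, 11, 12],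
  [1, 3, 4, 5, 6, 10, 11, 12],
  [0, 3, 4, 5, 6, 7, 8, 9],
  [1, 2, 4, 5, 6, 7, 8, 9],
  [0, 2, 4, 5, 6, 10, 11, 12],
  [0, 1, 7, 8, 9, 10, 11, 12],
  [0, 1, 2, 3, 10, 11, 12],
  [0, 1, 2, 3, 7, 8, 9],
  [0, 1, 2, 3, 4, 5, 6]]

def P (I : Finset (Fin 13)) : Prop := ∀ L ∈ cs, ∃ e ∈ L, e ∉ I
instance : DecidablePred P := fun _ => by unfold P; infer_instance

theorem l1 : ∀ L ∈ cs, ∀ a, a ∉ L → ∀ b, b ∉ L → ∀ c, c ∉ L → det a b c = 0 := by decide +kernel
theorem l2 : ∀ x, ∃ L ∈ cs, ∀ y ∈ L, ∃ K ∈ cs, ∀ z ∈ K, det x y z ≠ 0 := by decide +kernel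

theorem indep_iff (I : Finset (Fin 13)) : N✶.Indep I ↔ P I := by
  rw [Matroid.dual_indep_iff_exists (Set.subset_univ _)]
  constructor
  · rintro ⟨B, ⟨a, b, c, h, rfl⟩, d⟩ L hL
    by_contra k
    push Not at k
    have u : ∀ e ∈ ({a, b, c} : Set (Fin 13)), e ∉ L := fun e he o =>
      Set.disjoint_left.1 d (k e o) he
    exact h (l1 L hL a (u _ (by simp)) b (u _ (by simp)) c (u _ (by simp)))
  · intro h
    obtain ⟨x, -, hx⟩ := h _ List.mem_cons_self
    obtain ⟨L, mL, hL⟩ := l2 x
    obtain ⟨y, o, hy⟩ := h L mL
    obtain ⟨K, mK, hK⟩ := hL y o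
    obtain ⟨z, o', hz⟩ := h K mK
    refine ⟨_, ⟨x, y, z, hK z o', rfl⟩, Set.disjoint_right.2 ?_⟩
    rintro e (rfl | rfl | rfl) <;> simpa

def cnt (i : ℕ) : ℕ := ((powersetCard i (univ : Finset (Fin 13))).filter P).card

theorem F_eq (i : ℕ) : F N✶ i = cnt i := by
  rw [F, cnt, ← Set.ncard_coe_finset, ← Set.ncard_image_of_injective _ Finset.coe_injective]
  congr 1
  ext I
  obtain ⟨J, rfl⟩ : ∃ J : Finset (Fin 13), I = J := ⟨I.toFinite.toFinset, by simp⟩
  simp [indep_iff, and_comm]

def bad (k : ℕ) : ℕ := (cs.toFinset.biUnion fun L => powersetCard k L.toFinsetᶜ).card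

theorem cnt_eq (i : ℕ) (h : i ≤ 13) : cnt i = Nat.choose 13 i - bad (13 - i) := by
  have := card_filter_add_card_filter_not (s := powersetCard i (univ : Finset (Fin 13))) P
  rw [card_powersetCard, card_univ, Fintype.card_fin] at this
  have e : ((powersetCard i (univ : Finset (Fin 13))).filter fun I => ¬ P I).card = bad (13 - i) := by
    refine card_nbij' compl compl (fun I hI => ?_) (fun I hI => ?_) (fun I _ => compl_compl I)
      fun I _ => compl_compl I
    · simp only [P, coe_filter, mem_powersetCard, Set.mem_setOf_eq, not_forall, not_exists,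
        not_and, not_not] at hI
      obtain ⟨⟨-, c⟩, L, hL, k⟩ := hI
      simp only [coe_biUnion, Set.mem_iUnion, mem_coe, mem_powersetCard, List.mem_toFinset]
      exact ⟨L, hL, compl_subset_compl.2 fun e he => k e (List.mem_toFinset.1 he),
        by rw [card_compl, c]; rfl⟩
    · simp only [coe_biUnion, Set.mem_iUnion, mem_coe, mem_powersetCard, List.mem_toFinset] at hI
      obtain ⟨L, hL, k, c⟩ := hI
      simp only [P, coe_filter, mem_powersetCard, Set.mem_setOf_eq, not_forall, not_exists,
        not_and, not_not]
      refine ⟨⟨subset_univ _, by rw [card_compl, c, Fintype.card_fin]; omega⟩, L, hL,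
        fun e he => mem_compl.2 fun a => mem_compl.1 (k a) (List.mem_toFinset.2 he)⟩
  rw [cnt]
  omega

theorem bads : (List.range 11).map (fun i => bad (13 - i)) = [0, 0, 0, 0, 0, 0, 0, 3, 24, 75, 111] := by
  decide +kernel

theorem rank : N✶.eRank = 10 := by
  have h : N.IsBase {0, 1, 2} := ⟨0, 1, 2, by decide, rfl⟩
  rw [← h.compl_isBase_dual.encard_eq_eRank]
  have : N.E \ {0, 1, 2} = (({3, 4, 5, 6, 7, 8, 9, 10, 11, 12} : Finset (Fin 13)) : Set (Fin 13)) := by
    ext z
    change (True ∧ _) ↔ _
    revert z
    simp only [Set.mem_insert_iff, Set.mem_singleton_iff, Finset.mem_coe]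
    decide
  rw [this, Set.encard_coe_eq_coe_finsetCard]
  rfl

noncomputable def H : ℂ[X] := C 9 * X ^ 10 + (C 19 * X ^ 9 + C 30 * X ^ 8 + C 33 * X ^ 7 +
  C 28 * X ^ 6 + C 21 * X ^ 5 + C 15 * X ^ 4 + C 10 * X ^ 3 + C 6 * X ^ 2 + C 3 * X + C 1)

theorem root : ∃ z : ℂ, H.eval z = 0 ∧ 1 < ‖z‖ := by
  by_contra c
  push Not at c
  have hd : H.natDegree = 10 := by unfold H; compute_degree!
  have hl : H.leadingCoeff = 9 := by
    rw [leadingCoeff, hd]; unfold H; simp [coeff_X, coeff_one]
  obtain ⟨w, hw⟩ : ∃ w : ℂ, w = ⟨-21656206733264350230554 / 10 ^ 23, 98862392374147542564914 / 10 ^ 23⟩ :=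
    ⟨_, rfl⟩
  have q : w ^ 2 - (-10828103366632175115277 / 25000000000000000000000) * w + (1280345489501723794692433423903086419357371789 / 1250000000000000000000000000000000000000000000) = 0 := by
    rw [hw]; apply Complex.ext <;> simp [pow_two] <;> norm_num
  have n : ‖w‖ ^ 2 = (1280345489501723794692433423903086419357371789 / 1250000000000000000000000000000000000000000000) := by
    rw [Complex.sq_norm, hw, Complex.normSq_mk]; norm_num
  have n1 : 1.012 ≤ ‖w‖ := by nlinarith [norm_nonneg w]
  have n2 : ‖w‖ ≤ 2 := by nlinarith [norm_nonneg w]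
  have e : H.eval w = (((-1485507504062310292934180715735332450798650154132886204989753303874976722142436468569529137435465686900159110665939223276443653706195271022953454698126970938097522815102762516327813 / 61035156250000000000000000000000000000000000000000000000000000000000000000000000000000000000000000000000000000000000000000000000000000000000000000000000000000000000000000000000000000000000000000000000000) : ℝ) : ℂ) * w + (((74637419088677194774027236316743158803951111731566869557194639631211709892350038960158384672496181658081783880018955472831273522881101740722569902695076948335922494031860287341613815452107929425994565099 / 3051757812500000000000000000000000000000000000000000000000000000000000000000000000000000000000000000000000000000000000000000000000000000000000000000000000000000000000000000000000000000000000000000000000000000000000000000000000) : ℝ) : ℂ) := by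
    unfold H
    simp only [eval_add, eval_mul, eval_C, eval_pow, eval_X]
    push_cast
    linear_combination ((2383542440320278304219473298493999411813934769450096764313280813220528188178896045198579784205649208835250997352652633863840301553780971933647845310382174137811746682688992830679209 / 2441406250000000000000000000000000000000000000000000000000000000000000000000000000000000000000000000000000000000000000000000000000000000000000000000000000000000000000000000000000000) * w ^ 0 + (1535681444161145968925909807553740804924896868086756819834548797461927882896716408827020870775279241853688598756150713525968407364268783833947149996282006991 / 610351562500000000000000000000000000000000000000000000000000000000000000000000000000000000000000000000000000000000000000000000000000000000000000000000000000) * w ^ 1 + (7501359868828945831504769518252796593439381955859808948150210600787269203071229109043310586063772377198703424634633379977564993608709139 / 1953125000000000000000000000000000000000000000000000000000000000000000000000000000000000000000000000000000000000000000000000000000000000)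 * w ^ 2 + (221972301029252376598766540830172544707059060236758606722177723597588791007718969099379996378304937364221659814653 / 39062500000000000000000000000000000000000000000000000000000000000000000000000000000000000000000000000000000000000) * w ^ 3 + (13268635091325719227865349518861702925788476957353042628253194658553456093578117141494082791 / 1562500000000000000000000000000000000000000000000000000000000000000000000000000000000000000) * w ^ 4 + (8877799984375577489966320081080278740949409508089159931988183482729 / 781250000000000000000000000000000000000000000000000000000000000000) * w ^ 5 + (17800653201516398297240906383652733014081815021 / 1250000000000000000000000000000000000000000000) * w ^ 6 + (377547069700310423962507 / 25000000000000000000000) * w ^ 7 + (9 / 1) * w ^ 8) * q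
  have up : ‖H.eval w‖ ≤ 1 / 10 ^ 21 := by
    rw [e]
    refine (norm_add_le _ _).trans ?_
    rw [norm_mul, Complex.norm_real, Complex.norm_real, Real.norm_eq_abs, Real.norm_eq_abs,
      abs_of_neg (by norm_num), abs_of_pos (by norm_num)]
    nlinarith
  have lo : ∀ s : Multiset ℂ, (∀ a ∈ s, ‖a‖ ≤ 1) →
      0.012 ^ s.card ≤ ‖(s.map (w - ·)).prod‖ := by
    intro s
    induction s using Multiset.induction_on with
    | empty => simp
    | cons a s ih =>
      intro h
      rw [Multiset.map_cons, Multiset.prod_cons, norm_mul, Multiset.card_cons, pow_succ']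
      have := h a (by simp)
      have := norm_sub_norm_le w a
      exact mul_le_mul (by linarith) (ih fun b hb => h b (by simp [hb])) (by positivity)
        (norm_nonneg _)
  have := lo H.roots fun a ha => c a (isRoot_of_mem_roots ha)
  rw [(IsAlgClosed.splits H).eval_eq_prod_roots, norm_mul, hl] at up
  rw [IsAlgClosed.card_roots_eq_natDegree, hd] at this
  norm_num at up this
  linarith

theorem result : ∃ M : Matroid (Fin 13), M.E.ncard = 13 ∧ M.eRank = 10 ∧
    ∃ z : ℂ, Rel M z = 0 ∧ 1 < ‖z‖ := by
  obtain ⟨z, hz, h⟩ := root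
  have hE : N✶.E.ncard = 13 := by
    change (Set.univ : Set (Fin 13)).ncard = 13
    simp
  refine ⟨N✶, hE, rank, z, ?_, h⟩
  unfold H at hz
  simp only [eval_add, eval_mul, eval_C, eval_pow, eval_X] at hz
  rw [Rel, rank, hE, show (10 : ℕ∞).toNat = 10 from rfl]
  have := bads
  simp only [List.range_succ, List.range_zero, List.nil_append, List.cons_append, List.map_cons,
    List.map_nil, List.cons.injEq] at this
  rw [sum_congr rfl fun i hi => by rw [F_eq, cnt_eq i (by have := mem_range.1 hi; omega)]]
  simp only [sum_range_succ, sum_range_zero, this]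
  norm_num [Nat.choose]
  linear_combination (1 - z) ^ 3 * hz

end Pool.Agent.Results.MP_a27c8d_co.Small
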